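import Pool.Agent.Work.MP_223b32_tc.Interface

/-!
# PC: reciprocity for the quadratic characters, from the resultant
-/

namespace Pool.Agent.Work.TC.PC

open Finset Polynomial IntermediateField

section Embeddings

variable {F L Ω : Type} [Field F] [Field L] [Field Ω] [Algebra F L] [Algebra F Ω]
  [IsAlgClosed Ω] [FiniteDimensional F L] [Algebra.IsSeparable F L]

/-- The product over the embeddings of a simple extension. -/
theorem prod_gen (pb : PowerBasis F L) (t : Ω) :
    ∏ σ : L →ₐ[F] Ω, (t - σ pb.gen) = aeval t (minpoly F pb.gen) := by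
  classical
  have hsep : (minpoly F pb.gen).Separable := Algebra.IsSeparable.isSeparable F pb.gen
  have hmon : (minpoly F pb.gen).Monic := minpoly.monic (Algebra.IsIntegral.isIntegral _)
  have h1 : aeval t (minpoly F pb.gen) = (((minpoly F pb.gen).aroots Ω).map fun r => t - r).prod := by
    rw [aeval_def, ← eval_map, (IsAlgClosed.splits ((minpoly F pb.gen).map (algebraMap F Ω))).eq_prod_roots_of_monic (hmon.map _), eval_multiset_prod]
    simp [aroots_def]
  rw [h1]
  have h2 : ((minpoly F pb.gen).aroots Ω).Nodup := nodup_roots (.map hsep)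
  have h3 : (((minpoly F pb.gen).aroots Ω).map fun r => t - r).prod =
      ∏ r ∈ ((minpoly F pb.gen).aroots Ω).toFinset, (t - r) := by
    rw [Finset.prod_eq_multiset_prod, Multiset.toFinset_val, Multiset.dedup_eq_self.mpr h2]
  rw [h3]
  have h4 : ∏ r ∈ ((minpoly F pb.gen).aroots Ω).toFinset, (t - r) =
      ∏ x : {y : Ω // y ∈ (minpoly F pb.gen).aroots Ω}, (t - x) := by
    refine (Finset.prod_subtype _ (fun x => ?_) _)
    simp
  rw [h4]
  exact Fintype.prod_equiv pb.liftEquiv' _ _ fun σ => by simp [PowerBasis.liftEquiv'_apply_coe]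

/-- The product over the embeddings of an extension. -/
theorem prod_emb (y : L) (t : Ω) :
    ∏ σ : L →ₐ[F] Ω, (t - σ y) =
      aeval t (minpoly F y) ^ (Module.finrank F L / (minpoly F y).natDegree) := by
  classical
  have hy : IsIntegral F y := Algebra.IsIntegral.isIntegral y
  have : Algebra.IsSeparable F F⟮y⟯ := Algebra.isSeparable_tower_bot_of_isSeparable F F⟮y⟯ L
  have : Algebra.IsSeparable F⟮y⟯ L := Algebra.isSeparable_tower_top_of_isSeparable F F⟮y⟯ L
  have hdeg : Module.finrank F L / (minpoly F y).natDegree = Module.finrank F⟮y⟯ L := by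
    rw [← IntermediateField.adjoin.finrank hy, ← Module.finrank_mul_finrank F F⟮y⟯ L,
      Nat.mul_div_cancel_left _ Module.finrank_pos]
  have hgen : minpoly F (AdjoinSimple.gen F y) = minpoly F y := IntermediateField.minpoly_gen F y
  have h1 := prod_gen (Ω := Ω) (adjoin.powerBasis hy) t
  rw [adjoin.powerBasis_gen hy, hgen] at h1
  rw [hdeg, ← h1]
  rw [Fintype.prod_equiv algHomEquivSigma (fun σ : L →ₐ[F] Ω => t - σ y)
    (fun σ : Σ f : F⟮y⟯ →ₐ[F] Ω, @AlgHom F⟮y⟯ L Ω _ _ _ _ f.toRingHom.toAlgebra =>
      t - σ.1 (AdjoinSimple.gen F y)),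
    ← Finset.univ_sigma_univ, Finset.prod_sigma, ← Finset.prod_pow]
  · refine Finset.prod_congr rfl fun σ _ => ?_
    let : Algebra F⟮y⟯ Ω := σ.toRingHom.toAlgebra
    simp_rw [Finset.prod_const]
    congr
    exact AlgHom.card F⟮y⟯ L Ω
  · intro σ
    simp only [algHomEquivSigma, Equiv.coe_fn_mk, AlgHom.domRestrict, AlgHom.comp_apply,
      IsScalarTower.coe_toAlgHom']
    rfl

end Embeddings

/-- The two products. -/
theorem norm_swap {F K E : Type} [Field F] [Field K] [Field E] [Algebra F K] [Algebra F E]
    [FiniteDimensional F K] [FiniteDimensional F E] [Algebra.IsSeparable F K]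
    [Algebra.IsSeparable F E] (a : K) (x : E)
    (ha : (minpoly F a).natDegree = Module.finrank F K) :
    Algebra.norm F (aeval x (minpoly F a)) =
      (-1) ^ (Module.finrank F K * Module.finrank F E) *
        Algebra.norm F (aeval a (minpoly F x ^ (Module.finrank F E / (minpoly F x).natDegree))) := by
  classical
  apply (algebraMap F (AlgebraicClosure F)).injective
  rw [map_mul, Algebra.norm_eq_prod_embeddings F (AlgebraicClosure F), map_pow, map_neg, map_one,
    Algebra.norm_eq_prod_embeddings F (AlgebraicClosure F)]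
  have h1 : ∀ σ : E →ₐ[F] AlgebraicClosure F, σ (aeval x (minpoly F a)) =
      ∏ τ : K →ₐ[F] AlgebraicClosure F, (σ x - τ a) := by
    intro σ
    rw [prod_emb, ha, Nat.div_self Module.finrank_pos, pow_one, ← aeval_algHom_apply]
  have h2 : ∀ τ : K →ₐ[F] AlgebraicClosure F,
      τ (aeval a (minpoly F x ^ (Module.finrank F E / (minpoly F x).natDegree))) =
      ∏ σ : E →ₐ[F] AlgebraicClosure F, (τ a - σ x) := by
    intro τ
    rw [prod_emb, ← aeval_algHom_apply, map_pow]
  simp_rw [h1, h2]
  rw [Finset.prod_comm]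
  have h3 : ∀ τ : K →ₐ[F] AlgebraicClosure F, ∏ σ : E →ₐ[F] AlgebraicClosure F, (σ x - τ a) =
      (-1) ^ Module.finrank F E * ∏ σ : E →ₐ[F] AlgebraicClosure F, (τ a - σ x) := by
    intro τ
    rw [← AlgHom.card F E (AlgebraicClosure F), ← Finset.card_univ, ← Finset.prod_const,
      ← Finset.prod_mul_distrib]
    refine Finset.prod_congr rfl fun σ _ => by ring
  simp_rw [h3]
  rw [Finset.prod_mul_distrib, Finset.prod_const, Finset.card_univ,
    AlgHom.card F K (AlgebraicClosure F), ← pow_mul, mul_comm (Module.finrank F E)]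

/-- The quadratic character of an extension. -/
theorem char_norm {F E : Type} [Field F] [Fintype F] [DecidableEq F] [Field E] [Fintype E]
    [DecidableEq E] [Algebra F E] (hF : ringChar F ≠ 2) (y : E) :
    quadraticChar E y = quadraticChar F (Algebra.norm F y) := by
  have hE : ringChar E ≠ 2 := by
    rwa [← Algebra.ringChar_eq F E]
  have hqF : Fintype.card F % 2 = 1 := FiniteField.odd_card_of_char_ne_two hF
  have hqE : Fintype.card E % 2 = 1 := FiniteField.odd_card_of_char_ne_two hE
  have hF1 : 1 < Fintype.card F := Fintype.one_lt_card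
  have hcard : Fintype.card E = Fintype.card F ^ Module.finrank F E := Module.card_eq_pow_finrank
  have hdvd : Fintype.card F - 1 ∣ Fintype.card E - 1 := by
    rw [hcard]; simpa using Nat.sub_dvd_pow_sub_pow (Fintype.card F) 1 (Module.finrank F E)
  have key : ((quadraticChar E y : ℤ) : E) = ((quadraticChar F (Algebra.norm F y) : ℤ) : E) := by
    rw [quadraticChar_eq_pow_of_char_ne_two' hE]
    have h1 : ((quadraticChar F (Algebra.norm F y) : ℤ) : E) =
        algebraMap F E ((quadraticChar F (Algebra.norm F y) : ℤ) : F) := by simp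
    rw [h1, quadraticChar_eq_pow_of_char_ne_two' hF, map_pow, FiniteField.algebraMap_norm_eq_pow,
      ← pow_mul, Nat.card_eq_fintype_card, Nat.card_eq_fintype_card]
    congr 1
    obtain ⟨c, hc⟩ := hdvd
    have h2 : Fintype.card E - 1 = (Fintype.card F - 1) * c := hc
    have h3 : (Fintype.card E - 1) / (Fintype.card F - 1) = c := by
      rw [hc]; exact Nat.mul_div_cancel_left _ (by omega)
    rw [h3]
    obtain ⟨m, hm⟩ : ∃ m, Fintype.card F = 2 * m + 1 := ⟨Fintype.card F / 2, by omega⟩
    have h4 : Fintype.card F / 2 = m := by omega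
    rw [h4]
    have h5 : Fintype.card F - 1 = 2 * m := by omega
    rw [h5] at h2
    have h6 : 1 ≤ Fintype.card E := Fintype.card_pos
    have h7 : Fintype.card E = 2 * (c * m) + 1 := by
      have : 2 * m * c = 2 * (c * m) := by ring
      omega
    omega
  have hinj : ∀ u v : ℤ, (u = 0 ∨ u = 1 ∨ u = -1) → (v = 0 ∨ v = 1 ∨ v = -1) →
      ((u : ℤ) : E) = (v : E) → u = v := by
    have h2 : (2 : E) ≠ 0 := Ring.two_ne_zero hE
    have h1 : (1 : E) ≠ -1 := Ring.neg_one_ne_one_of_char_ne_two hE |>.symm
    rintro u v (rfl | rfl | rfl) (rfl | rfl | rfl) h <;>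
      first
      | rfl
      | (exfalso; simp at h; done)
      | (exfalso; exact h1 (by simpa using h))
      | (exfalso; exact h1 (by simpa using h.symm))
  have hval : ∀ (G : Type) [Field G] [Fintype G] [DecidableEq G] (z : G),
      quadraticChar G z = 0 ∨ quadraticChar G z = 1 ∨ quadraticChar G z = -1 := by
    intro G _ _ _ z
    by_cases hz : z = 0
    · left; simp [hz]
    · right
      exact quadraticChar_dichotomy hz
  exact hinj _ _ (hval E y) (hval F _) key

end Pool.Agent.Work.TC.PC

namespace Pool.Agent.Work.TC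

open Finset Polynomial

theorem stmt_PC : Stmt_PC := by
  intro F K E _ _ _ _ _ _ _ _ _ _ _ hF hodd a ha x
  have hK : FiniteDimensional F K := Module.Finite.of_finite
  have hE : FiniteDimensional F E := Module.Finite.of_finite
  rw [PC.char_norm hF, PC.char_norm (F := F) (E := K) hF, PC.norm_swap a x ha, map_mul, map_pow]
  congr 1
  rw [pow_mul]
  congr 1
  obtain ⟨c, hc⟩ := hodd
  have h1 : quadraticChar F (-1 : F) ^ 2 = 1 := by
    apply quadraticChar_sq_one
    exact neg_ne_zero.mpr one_ne_zero
  rw [hc, pow_succ, pow_mul, h1, one_pow, one_mul]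

end Pool.Agent.Work.TC
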