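import Pool.Agent.Work.MP_223b32_tc.Interface

/-!
# EP: the Euler product over the polynomial ring of a finite field
-/

namespace Pool.Agent.Work.TC.EP

open Finset Polynomial UniqueFactorizationMonoid

section

variable {F : Type} [Field F]

theorem natDegree_low (m : ℕ) (c : Fin m → F) :
    (∑ i : Fin m, C (c i) * X ^ (i : ℕ) : F[X]).degree < m := by
  refine (degree_sum_le _ _).trans_lt ?_
  rw [Finset.sup_lt_iff (by exact WithBot.bot_lt_coe m)]
  intro i _
  refine (degree_C_mul_X_pow_le _ _).trans_lt ?_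
  exact_mod_cast i.2

theorem mon_monic (m : ℕ) (c : Fin m → F) : (mon m c).Monic := by
  unfold mon
  exact monic_X_pow_add (natDegree_low m c)

theorem mon_natDegree (m : ℕ) (c : Fin m → F) : (mon m c).natDegree = m := by
  unfold mon
  rw [natDegree_eq_of_degree_eq (degree_add_eq_left_of_degree_lt (by
    rw [degree_X_pow]; exact natDegree_low m c)), natDegree_X_pow]

theorem mon_coeff (m : ℕ) (c : Fin m → F) (i : Fin m) : (mon m c).coeff i = c i := by
  unfold mon
  rw [coeff_add, coeff_X_pow, if_neg (by have := i.2; omega), zero_add, finsetSum_coeff]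
  simp_rw [coeff_C_mul_X_pow]
  rw [Finset.sum_eq_single i]
  · simp
  · intro b _ hb
    rw [if_neg]
    intro h
    exact hb (Fin.ext h.symm)
  · simp

theorem mon_injective (m : ℕ) : Function.Injective (mon (F := F) m) := by
  intro c d h
  funext i
  rw [← mon_coeff m c i, h, mon_coeff]

theorem mon_surj {h : F[X]} (hm : h.Monic) : ∃ c : Fin h.natDegree → F, mon h.natDegree c = h := by
  refine ⟨fun i => h.coeff i, ?_⟩
  unfold mon
  conv_rhs => rw [hm.as_sum]
  rw [Finset.sum_range]

variable [Fintype F]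

open Classical in
/-- Monic polynomials of degree `m`. -/
noncomputable def M (F : Type) [Field F] [Fintype F] (m : ℕ) : Finset F[X] :=
  Finset.univ.image (mon (F := F) m)

theorem mem_M {m : ℕ} {h : F[X]} : h ∈ M F m ↔ h.Monic ∧ h.natDegree = m := by
  classical
  unfold M
  rw [Finset.mem_image]
  constructor
  · rintro ⟨c, -, rfl⟩
    exact ⟨mon_monic m c, mon_natDegree m c⟩
  · rintro ⟨h1, rfl⟩
    obtain ⟨c, hc⟩ := mon_surj h1
    exact ⟨c, Finset.mem_univ _, hc⟩

theorem msum_eq (χ : F[X] →* ℤ) (m : ℕ) : msum χ m = ∑ h ∈ M F m, χ h := by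
  classical
  unfold msum M
  rw [Finset.sum_image fun c _ d _ h => mon_injective m h]

open Classical in
/-- Monic irreducible polynomials of degree at most `m`. -/
noncomputable def P (F : Type) [Field F] [Fintype F] (m : ℕ) : Finset F[X] :=
  (Finset.Icc 1 m).biUnion fun d => (M F d).filter Irreducible

theorem mem_P {m : ℕ} {π : F[X]} :
    π ∈ P F m ↔ π.Monic ∧ Irreducible π ∧ π.natDegree ≤ m := by
  classical
  unfold P
  rw [Finset.mem_biUnion]
  constructor
  · rintro ⟨d, hd, h⟩
    rw [Finset.mem_filter, mem_M] at h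
    rw [Finset.mem_Icc] at hd
    exact ⟨h.1.1, h.2, h.1.2 ▸ hd.2⟩
  · rintro ⟨h1, h2, h3⟩
    refine ⟨π.natDegree, Finset.mem_Icc.mpr ⟨h2.natDegree_pos, h3⟩, ?_⟩
    rw [Finset.mem_filter, mem_M]
    exact ⟨⟨h1, rfl⟩, h2⟩

theorem lam_eq (χ : F[X] →* ℤ) {m k : ℕ} (hk : 1 ≤ k) (hkm : k ≤ m) :
    lam χ k = ∑ π ∈ P F m, if π.natDegree ∣ k then
      (π.natDegree : ℤ) * χ π ^ (k / π.natDegree) else 0 := by
  classical
  unfold lam
  have : {π : F[X] | π.Monic ∧ Irreducible π ∧ π.natDegree ∣ k} =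
      ↑((P F m).filter fun π => π.natDegree ∣ k) := by
    ext π
    simp only [Set.mem_ofPred_eq, Finset.coe_filter, mem_P]
    constructor
    · rintro ⟨h1, h2, h3⟩
      exact ⟨⟨h1, h2, (Nat.le_of_dvd (by omega) h3).trans hkm⟩, h3⟩
    · rintro ⟨⟨h1, h2, -⟩, h3⟩
      exact ⟨h1, h2, h3⟩
  rw [this, finsum_mem_coe_finset, Finset.sum_filter]

open Classical in
/-- The degree of a monic polynomial through its irreducible factors. -/
theorem deg_eq {m : ℕ} {h : F[X]} (hh : h ∈ M F m) :
    m = ∑ π ∈ P F m, π.natDegree * ((Finset.Icc 1 m).filter fun i => π ^ i ∣ h).card := by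
  classical
  rw [mem_M] at hh
  obtain ⟨hm, hd⟩ := hh
  have h0 : h ≠ 0 := hm.ne_zero
  set S := normalizedFactors h with hS
  have hmon : ∀ π ∈ S, π.Monic := by
    intro π hπ
    have := normalize_normalized_factor π hπ
    rw [← this]
    exact monic_normalize (irreducible_of_normalized_factor π hπ).ne_zero
  have hprod : S.prod = h := by
    have h1 := prod_normalizedFactors_eq h0
    rw [h1, hm.normalize_eq_self]
  have hcount : ∀ π ∈ P F m, ((Finset.Icc 1 m).filter fun i => π ^ i ∣ h).card = S.count π := by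
    intro π hπ
    rw [mem_P] at hπ
    obtain ⟨h1, h2, h3⟩ := hπ
    have hdvd : ∀ i : ℕ, π ^ i ∣ h ↔ i ≤ S.count π := by
      intro i
      rw [pow_dvd_iff_le_emultiplicity, emultiplicity_eq_count_normalizedFactors h2 h0,
        h1.normalize_eq_self]
      exact Nat.cast_le
    have hle : S.count π ≤ m := by
      have h4 : π ^ S.count π ∣ h := (hdvd _).mpr le_rfl
      have h5 := natDegree_le_of_dvd h4 h0
      rw [natDegree_pow, hd] at h5
      exact (Nat.le_mul_of_pos_right _ h2.natDegree_pos).trans h5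
    have : (Finset.Icc 1 m).filter (fun i => π ^ i ∣ h) = Finset.Icc 1 (S.count π) := by
      ext i
      rw [Finset.mem_filter, Finset.mem_Icc, Finset.mem_Icc, hdvd]
      omega
    rw [this, Nat.card_Icc]
    omega
  have hsub : S.toFinset ⊆ P F m := by
    intro π hπ
    rw [Multiset.mem_toFinset] at hπ
    rw [mem_P]
    refine ⟨hmon π hπ, irreducible_of_normalized_factor π hπ, ?_⟩
    rw [← hd]
    exact natDegree_le_of_dvd (dvd_of_mem_normalizedFactors hπ) h0
  calc m = h.natDegree := hd.symm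
    _ = S.prod.natDegree := by rw [hprod]
    _ = (S.map natDegree).sum := natDegree_multiset_prod_of_monic S hmon
    _ = ∑ π ∈ S.toFinset, S.count π • π.natDegree := Finset.sum_multiset_map_count S _
    _ = ∑ π ∈ P F m, S.count π • π.natDegree := by
        refine Finset.sum_subset hsub fun π _ hπ => ?_
        rw [Multiset.mem_toFinset] at hπ
        rw [Multiset.count_eq_zero_of_notMem hπ, zero_smul]
    _ = _ := by
        refine Finset.sum_congr rfl fun π hπ => ?_
        rw [hcount π hπ, smul_eq_mul, mul_comm]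

open Classical in
/-- The multiples of `π ^ i`. -/
theorem sum_dvd (χ : F[X] →* ℤ) {m i : ℕ} {π : F[X]} (hπ : π.Monic) :
    ∑ h ∈ M F m, (if π ^ i ∣ h then χ h else 0) =
      if i * π.natDegree ≤ m then χ π ^ i * msum χ (m - i * π.natDegree) else 0 := by
  classical
  rw [← Finset.sum_filter]
  have hpi : (π ^ i).Monic := hπ.pow i
  split_ifs with hle
  · rw [msum_eq, Finset.mul_sum]
    symm
    refine Finset.sum_bij (fun g _ => π ^ i * g) ?_ ?_ ?_ ?_
    · intro g hg
      rw [mem_M] at hg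
      rw [Finset.mem_filter, mem_M]
      refine ⟨⟨hpi.mul hg.1, ?_⟩, dvd_mul_right _ _⟩
      rw [hpi.natDegree_mul hg.1, natDegree_pow, hg.2]
      omega
    · intro g _ g' _ h
      exact mul_left_cancel₀ hpi.ne_zero h
    · intro h hh
      rw [Finset.mem_filter, mem_M] at hh
      obtain ⟨⟨h1, h2⟩, g, rfl⟩ := hh
      have hg : g.Monic := hpi.of_mul_monic_left h1
      refine ⟨g, ?_, rfl⟩
      rw [mem_M]
      refine ⟨hg, ?_⟩
      rw [hpi.natDegree_mul hg, natDegree_pow] at h2
      omega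
    · intro g _
      rw [map_mul, map_pow]
  · refine Finset.sum_eq_zero fun h hh => ?_
    exfalso
    rw [Finset.mem_filter, mem_M] at hh
    obtain ⟨⟨h1, h2⟩, h3⟩ := hh
    have := natDegree_le_of_dvd h3 h1.ne_zero
    rw [natDegree_pow, h2] at this
    exact hle this

/-- Reindexing the multiples of `d`. -/
theorem sum_mult {m d : ℕ} (hd : 1 ≤ d) (G : ℕ → ℤ) :
    ∑ k ∈ Icc 1 m, (if d ∣ k then G k else 0) =
      ∑ i ∈ Icc 1 m, if i * d ≤ m then G (i * d) else 0 := by
  classical
  rw [← Finset.sum_filter, ← Finset.sum_filter]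
  symm
  refine Finset.sum_bij (fun i _ => i * d) ?_ ?_ ?_ ?_
  · intro i hi
    rw [Finset.mem_filter, Finset.mem_Icc] at hi ⊢
    refine ⟨⟨Nat.mul_pos (by omega) (by omega), hi.2⟩, dvd_mul_left _ _⟩
  · intro i _ j _ h
    exact Nat.eq_of_mul_eq_mul_right (by omega) h
  · intro k hk
    rw [Finset.mem_filter, Finset.mem_Icc] at hk
    obtain ⟨⟨h1, h2⟩, i, rfl⟩ := hk
    refine ⟨i, ?_, mul_comm _ _⟩
    rw [Finset.mem_filter, Finset.mem_Icc, mul_comm i d]
    refine ⟨⟨Nat.pos_of_ne_zero (by rintro rfl; simp at h1), ?_⟩, h2⟩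
    exact (Nat.le_mul_of_pos_left i (by omega)).trans h2
  · intro i _
    rfl

end

end Pool.Agent.Work.TC.EP

namespace Pool.Agent.Work.TC

open Finset Polynomial

theorem stmt_EP : Stmt_EP := by
  intro F _ _ χ m hm
  classical
  have hL : (m : ℤ) * msum χ m = ∑ π ∈ EP.P F m, (π.natDegree : ℤ) *
      ∑ i ∈ Icc 1 m, if i * π.natDegree ≤ m then
        χ π ^ i * msum χ (m - i * π.natDegree) else 0 := by
    rw [EP.msum_eq, Finset.mul_sum]
    have h1 : ∀ h ∈ EP.M F m, (m : ℤ) * χ h = ∑ π ∈ EP.P F m, (π.natDegree : ℤ) *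
        ∑ i ∈ Icc 1 m, if π ^ i ∣ h then χ h else 0 := by
      intro h hh
      have h2 : (m : ℤ) = ∑ π ∈ EP.P F m, (π.natDegree : ℤ) *
          (((Finset.Icc 1 m).filter fun i => π ^ i ∣ h).card : ℤ) := by
        have := congrArg (fun t : ℕ => (t : ℤ)) (EP.deg_eq hh)
        push_cast at this
        exact this
      rw [show (m : ℤ) * χ h = (∑ π ∈ EP.P F m, (π.natDegree : ℤ) *
          (((Finset.Icc 1 m).filter fun i => π ^ i ∣ h).card : ℤ)) * χ h by rw [← h2],
        Finset.sum_mul]
      refine Finset.sum_congr rfl fun π _ => ?_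
      rw [← Finset.sum_filter, Finset.sum_const, nsmul_eq_mul]
      ring
    rw [Finset.sum_congr rfl h1, Finset.sum_comm]
    refine Finset.sum_congr rfl fun π hπ => ?_
    rw [← Finset.mul_sum, Finset.sum_comm]
    congr 1
    refine Finset.sum_congr rfl fun i _ => ?_
    exact EP.sum_dvd χ (EP.mem_P.mp hπ).1
  have hR : ∑ k ∈ Icc 1 m, lam χ k * msum χ (m - k) = ∑ π ∈ EP.P F m, (π.natDegree : ℤ) *
      ∑ i ∈ Icc 1 m, if i * π.natDegree ≤ m then
        χ π ^ i * msum χ (m - i * π.natDegree) else 0 := by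
    have h1 : ∀ k ∈ Icc 1 m, lam χ k * msum χ (m - k) = ∑ π ∈ EP.P F m,
        (π.natDegree : ℤ) * if π.natDegree ∣ k then
          χ π ^ (k / π.natDegree) * msum χ (m - k) else 0 := by
      intro k hk
      rw [Finset.mem_Icc] at hk
      rw [EP.lam_eq χ hk.1 hk.2, Finset.sum_mul]
      refine Finset.sum_congr rfl fun π _ => ?_
      split_ifs <;> ring
    rw [Finset.sum_congr rfl h1, Finset.sum_comm]
    refine Finset.sum_congr rfl fun π hπ => ?_
    have hd : 1 ≤ π.natDegree := (EP.mem_P.mp hπ).2.1.natDegree_pos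
    rw [← Finset.mul_sum,
      EP.sum_mult hd fun k => χ π ^ (k / π.natDegree) * msum χ (m - k)]
    congr 1
    refine Finset.sum_congr rfl fun i _ => ?_
    rw [Nat.mul_div_cancel _ (by omega)]
  rw [hL, hR]

end Pool.Agent.Work.TC
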